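import Mathlib
import Pool.Agent.X297.LO.Stm

/-! Part LO_LIFT (backup). -/

set_option autoImplicit false

namespace Pool.Agent.X107.LO.LIFT

open Pool.Agent.X297.LO

/-- the fibre over one triple of the local example -/
theorem fib (N m L : ℕ) (hN : 0 < N) (s : Fin m → ℤ) (b c k : ℤ) (p : Fin m × Fin m × Fin m) :
    Nat.card {z : Fin L × Fin L × Fin L //
      (s p.1 + N * ((z.1 : ℕ) : ℤ)) + b * (s p.2.1 + N * ((z.2.1 : ℕ) : ℤ))
        + c * (s p.2.2 + N * ((z.2.2 : ℕ) : ℤ)) = k} =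
      if (N : ℤ) ∣ s p.1 + b * s p.2.1 + c * s p.2.2 - k then
        Nat.card {z : Fin L × Fin L × Fin L //
          ((z.1 : ℕ) : ℤ) + b * ((z.2.1 : ℕ) : ℤ) + c * ((z.2.2 : ℕ) : ℤ)
            = -((s p.1 + b * s p.2.1 + c * s p.2.2 - k) / N)}
      else 0 := by
  have hN' : (N : ℤ) ≠ 0 := by exact_mod_cast hN.ne'
  split_ifs with hd
  · apply Nat.card_congr
    apply Equiv.subtypeEquivRight
    intro z
    obtain ⟨q, hq⟩ := hd
    rw [hq, Int.mul_ediv_cancel_left _ hN']
    constructor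
    · intro h
      apply mul_left_cancel₀ hN'
      linear_combination h - hq
    · intro h
      linear_combination (N : ℤ) * h + hq
  · rw [Nat.card_eq_zero]
    left
    constructor
    rintro ⟨z, hz⟩
    apply hd
    refine ⟨-(((z.1 : ℕ) : ℤ) + b * ((z.2.1 : ℕ) : ℤ) + c * ((z.2.2 : ℕ) : ℤ)), ?_⟩
    linear_combination hz

/-- counting triples over the local example -/
theorem cnt_lift (N m L : ℕ) (hN : 0 < N) (s : Fin m → ℤ) (b c k : ℤ) :
    cnt (fun q : Fin m × Fin L => s q.1 + N * ((q.2 : ℕ) : ℤ)) 1 b c k =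
      ∑ p : Fin m × Fin m × Fin m,
        if (N : ℤ) ∣ s p.1 + b * s p.2.1 + c * s p.2.2 - k then
        Nat.card {z : Fin L × Fin L × Fin L //
          ((z.1 : ℕ) : ℤ) + b * ((z.2.1 : ℕ) : ℤ) + c * ((z.2.2 : ℕ) : ℤ)
            = -((s p.1 + b * s p.2.1 + c * s p.2.2 - k) / N)}
      else 0 := by
  simp only [← fib N m L hN s b c k]
  rw [← Nat.card_sigma]
  unfold cnt
  apply Nat.card_congr
  refine
    { toFun := fun q => ⟨(q.1.1.1, q.1.2.1.1, q.1.2.2.1), ⟨(q.1.1.2, q.1.2.1.2, q.1.2.2.2), ?_⟩⟩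
      invFun := fun q => ⟨((q.1.1, q.2.1.1), (q.1.2.1, q.2.1.2.1), (q.1.2.2, q.2.1.2.2)), ?_⟩
      left_inv := fun q => rfl
      right_inv := fun q => rfl }
  · have := q.2
    simpa using this
  · have := q.2.2
    simpa using this

theorem t : S_LIFT := by
  classical
  intro hU hL N A M hN hAM hG
  obtain ⟨m, s, hM, x, hA⟩ := hG
  -- bound for e
  set E : ℕ := ∑ p : Fin m × Fin m × Fin m, (s p.1 - s p.2.1 + 2 * s p.2.2 - x).natAbs with hE
  set L : ℕ := 4 * A * (E + 2) + 1 with hLd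
  have hm : 0 < m := by
    rcases Nat.eq_zero_or_pos m with h | h
    · subst h
      have : Nat.card {p : Fin 0 × Fin 0 × Fin 0 //
          (N : ℤ) ∣ s p.1 - s p.2.1 + 2 * s p.2.2 - x} = 0 := by
        rw [Nat.card_eq_zero]; left; exact ⟨fun p => p.1.1.elim0⟩
      rw [this] at hA
      omega
    · exact h
  refine ⟨Fin m × Fin (2 * L), inferInstance, ⟨(⟨0, hm⟩, ⟨0, by omega⟩)⟩,
    fun q => s q.1 + N * ((q.2 : ℕ) : ℤ), x + N * (2 * L), fun k => ?_⟩
  -- upper bound
  have h1 : cnt (fun q : Fin m × Fin (2 * L) => s q.1 + N * ((q.2 : ℕ) : ℤ)) 1 (-1) 1 k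
      ≤ M * (3 * L ^ 2) := by
    rw [cnt_lift N m (2 * L) hN]
    calc _ ≤ ∑ p : Fin m × Fin m × Fin m,
        (if (N : ℤ) ∣ s p.1 - s p.2.1 + s p.2.2 - k then 3 * L ^ 2 else 0) := by
          apply Finset.sum_le_sum
          intro p _
          have e1 : s p.1 + -1 * s p.2.1 + 1 * s p.2.2 - k = s p.1 - s p.2.1 + s p.2.2 - k := by
            ring
          rw [e1]
          split_ifs with hd
          · refine le_trans (le_of_eq ?_) (hU L (-((s p.1 - s p.2.1 + s p.2.2 - k) / N)))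
            apply Nat.card_congr
            apply Equiv.subtypeEquivRight
            intro z
            constructor <;> intro h <;> linarith
          · exact le_rfl
      _ = Nat.card {p : Fin m × Fin m × Fin m // (N : ℤ) ∣ s p.1 - s p.2.1 + s p.2.2 - k}
          * (3 * L ^ 2) := by
          rw [← Finset.sum_filter, Finset.sum_const, smul_eq_mul, Nat.card_eq_fintype_card,
            Fintype.card_subtype]
      _ ≤ M * (3 * L ^ 2) := Nat.mul_le_mul_right _ (hM k)
  -- lower bound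
  have h2 : (A : ℤ) * (2 * (L : ℤ) ^ 2 - 4 * L * (E + 2)) ≤
      (cnt (fun q : Fin m × Fin (2 * L) => s q.1 + N * ((q.2 : ℕ) : ℤ)) 1 (-1) 2
        (x + N * (2 * L)) : ℤ) := by
    have hN' : (N : ℤ) ≠ 0 := by exact_mod_cast hN.ne'
    have hpos : 0 ≤ 2 * (L : ℤ) ^ 2 - 4 * L * (E + 2) := by
      have : (4 * A * (E + 2) + 1 : ℤ) = L := by rw [hLd]; push_cast; ring
      have hA1 : (1 : ℤ) ≤ A := by
        have : 1 ≤ A := by omega
        exact_mod_cast this
      have hE0 : (0 : ℤ) ≤ E := by positivity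
      have hL0 : (0 : ℤ) ≤ L := by positivity
      have h3 : 2 * ((E : ℤ) + 2) ≤ L := by nlinarith
      nlinarith
    rw [cnt_lift N m (2 * L) hN]
    calc (A : ℤ) * (2 * (L : ℤ) ^ 2 - 4 * L * (E + 2))
        ≤ (Nat.card {p : Fin m × Fin m × Fin m //
            (N : ℤ) ∣ s p.1 - s p.2.1 + 2 * s p.2.2 - x} : ℤ)
            * (2 * (L : ℤ) ^ 2 - 4 * L * (E + 2)) := by
          apply mul_le_mul_of_nonneg_right _ hpos
          exact_mod_cast hA
      _ = ∑ p : Fin m × Fin m × Fin m,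
          (if (N : ℤ) ∣ s p.1 - s p.2.1 + 2 * s p.2.2 - x then
            (2 * (L : ℤ) ^ 2 - 4 * L * (E + 2)) else 0) := by
          rw [← Finset.sum_filter, Finset.sum_const, nsmul_eq_mul, Nat.card_eq_fintype_card,
            Fintype.card_subtype]
      _ ≤ _ := by
          push_cast
          apply Finset.sum_le_sum
          intro p _
          have e1 : s p.1 + -1 * s p.2.1 + 2 * s p.2.2 - (x + N * (2 * L))
              = (s p.1 - s p.2.1 + 2 * s p.2.2 - x) + N * (-(2 * L)) := by ring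
          have e2 : (N : ℤ) ∣ s p.1 + -1 * s p.2.1 + 2 * s p.2.2 - (x + N * (2 * L)) ↔
              (N : ℤ) ∣ s p.1 - s p.2.1 + 2 * s p.2.2 - x := by
            rw [e1]
            exact (Int.dvd_add_left (Dvd.intro _ rfl))
          by_cases hd : (N : ℤ) ∣ s p.1 - s p.2.1 + 2 * s p.2.2 - x
          · rw [if_pos hd, if_pos (e2.2 hd)]
            obtain ⟨q, hq⟩ := hd
            have hqE : |-q| ≤ (E : ℤ) := by
              rw [abs_neg]
              have h4 : (s p.1 - s p.2.1 + 2 * s p.2.2 - x).natAbs ≤ E := by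
                rw [hE]
                exact Finset.single_le_sum (f := fun p : Fin m × Fin m × Fin m =>
                  (s p.1 - s p.2.1 + 2 * s p.2.2 - x).natAbs) (fun _ _ => Nat.zero_le _)
                  (Finset.mem_univ p)
              have h5 : |s p.1 - s p.2.1 + 2 * s p.2.2 - x| ≤ (E : ℤ) := by
                rw [Int.abs_eq_natAbs]; exact_mod_cast h4
              rw [hq, abs_mul] at h5
              have h6 : (1 : ℤ) ≤ |(N : ℤ)| := by
                rw [abs_of_pos (by exact_mod_cast hN)]; exact_mod_cast hN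
              nlinarith [abs_nonneg q]
            refine (hL L E (-q) hqE).trans (le_of_eq ?_)
            congr 1
            apply Nat.card_congr
            apply Equiv.subtypeEquivRight
            intro z
            rw [e1, hq, ← mul_add, Int.mul_ediv_cancel_left _ hN']
            constructor <;> intro h <;> linarith
          · rw [if_neg hd, if_neg (fun h => hd (e2.1 h))]
  have h3 : ((M * (3 * L ^ 2) : ℕ) : ℤ) < (A : ℤ) * (2 * (L : ℤ) ^ 2 - 4 * L * (E + 2)) := by
    have h4 : (4 * A * (E + 2) + 1 : ℤ) = L := by rw [hLd]; push_cast; ring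
    have h5 : (3 * M + 1 : ℤ) ≤ 2 * A := by exact_mod_cast hAM
    have hL0 : (0 : ℤ) < L := by rw [← h4]; positivity
    push_cast
    have h6 : (4 * A * (E + 2) : ℤ) < L := by omega
    nlinarith [mul_pos hL0 hL0, mul_lt_mul_of_pos_left h6 hL0,
      mul_le_mul_of_nonneg_right h5 (sq_nonneg (L : ℤ))]
  have h4 : (cnt (fun q : Fin m × Fin (2 * L) => s q.1 + N * ((q.2 : ℕ) : ℤ)) 1 (-1) 1 k : ℤ)
      ≤ ((M * (3 * L ^ 2) : ℕ) : ℤ) := by exact_mod_cast h1
  exact_mod_cast h4.trans_lt (h3.trans_le h2)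

end Pool.Agent.X107.LO.LIFT
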