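import Mathlib
import Pool.Agent.X297.LO.Stm

/-! Part LO_MEAS (backup). -/

set_option autoImplicit false

namespace Pool.Agent.X107.LO.MEAS

open MeasureTheory Pool.Agent.X297.LO

/-- triples as functions on `Fin 3` -/
def tri {Ω : Type} (σ : Equiv.Perm (Fin 3)) : (Fin 3 → Ω) ≃ Ω × Ω × Ω where
  toFun p := (p (σ 0), p (σ 1), p (σ 2))
  invFun q := fun i => (![q.1, q.2.1, q.2.2] : Fin 3 → Ω) (σ.symm i)
  left_inv p := by
    funext i
    obtain ⟨j, rfl⟩ := σ.surjective i
    simp only [Equiv.symm_apply_apply]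
    fin_cases j <;> rfl
  right_inv q := by
    simp

theorem card_tri {Ω G : Type} [Fintype Ω] [AddCommGroup G] (g : Ω → G) (a b c : ℤ) (k : G)
    (σ : Equiv.Perm (Fin 3)) (P : (Fin 3 → Ω) → Prop)
    (h : ∀ p, P p ↔ a • g (p (σ 0)) + b • g (p (σ 1)) + c • g (p (σ 2)) = k) :
    Nat.card {p : Fin 3 → Ω // P p} = cnt g a b c k := by
  unfold cnt
  exact Nat.card_congr ((tri σ).subtypeEquiv fun p => h p)

theorem signs {Ω G : Type} [Fintype Ω] [AddCommGroup G] (g : Ω → G) (w : Fin 3 → ℤ)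
    (hw : ∀ i, w i = 1 ∨ w i = -1) (k : G) :
    (∃ k', Nat.card {p : Fin 3 → Ω // ∑ i, w i • g (p i) = k} = cnt g 1 1 1 k') ∨
    (∃ k', Nat.card {p : Fin 3 → Ω // ∑ i, w i • g (p i) = k} = cnt g 1 (-1) 1 k') := by
  have s01 : Equiv.swap (0 : Fin 3) 1 0 = 1 := by decide
  have s01' : Equiv.swap (0 : Fin 3) 1 1 = 0 := by decide
  have s01'' : Equiv.swap (0 : Fin 3) 1 2 = 2 := by decide
  have s12 : Equiv.swap (1 : Fin 3) 2 0 = 0 := by decide
  have s12' : Equiv.swap (1 : Fin 3) 2 1 = 2 := by decide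
  have s12'' : Equiv.swap (1 : Fin 3) 2 2 = 1 := by decide
  rcases hw 0 with h0 | h0 <;> rcases hw 1 with h1 | h1 <;> rcases hw 2 with h2 | h2
  · left
    refine ⟨k, card_tri g 1 1 1 k 1 _ fun p => ?_⟩
    simp [Fin.sum_univ_three, h0, h1, h2]
  · right
    refine ⟨k, card_tri g 1 (-1) 1 k (Equiv.swap 1 2) _ fun p => ?_⟩
    rw [s12, s12', s12'', Fin.sum_univ_three, h0, h1, h2]
    constructor <;> intro h <;> rw [← h] <;> abel
  · right
    refine ⟨k, card_tri g 1 (-1) 1 k 1 _ fun p => ?_⟩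
    simp [Fin.sum_univ_three, h0, h1, h2]
  · right
    refine ⟨-k, card_tri g 1 (-1) 1 (-k) (Equiv.swap 0 1) _ fun p => ?_⟩
    rw [s01, s01', s01'', Fin.sum_univ_three, h0, h1, h2]
    constructor
    · intro h; rw [← h]; abel
    · intro h; rw [← neg_inj, ← h]; abel
  · right
    refine ⟨k, card_tri g 1 (-1) 1 k (Equiv.swap 0 1) _ fun p => ?_⟩
    rw [s01, s01', s01'', Fin.sum_univ_three, h0, h1, h2]
    constructor <;> intro h <;> rw [← h] <;> abel
  · right
    refine ⟨-k, card_tri g 1 (-1) 1 (-k) 1 _ fun p => ?_⟩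
    rw [Fin.sum_univ_three, h0, h1, h2]
    constructor
    · intro h; rw [← h]; simp; abel
    · intro h; rw [← neg_inj, ← h]; simp; abel
  · right
    refine ⟨-k, card_tri g 1 (-1) 1 (-k) (Equiv.swap 1 2) _ fun p => ?_⟩
    rw [s12, s12', s12'', Fin.sum_univ_three, h0, h1, h2]
    constructor
    · intro h; rw [← h]; abel
    · intro h; rw [← neg_inj, ← h]; abel
  · left
    refine ⟨-k, card_tri g 1 1 1 (-k) 1 _ fun p => ?_⟩
    rw [Fin.sum_univ_three, h0, h1, h2]
    constructor
    · intro h; rw [← h]; simp; abel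
    · intro h; rw [← neg_inj, ← h]; simp; abel

/-- the measure of a set of triples -/
theorem pi_card {Ω : Type} [Fintype Ω] [Nonempty Ω] [MeasurableSpace Ω] [MeasurableSingletonClass Ω]
    (S : Set (Fin 3 → Ω)) :
    Measure.pi (fun _ : Fin 3 => (ProbabilityTheory.uniformOn (Set.univ : Set Ω))) S
      = (Nat.card S : ENNReal) * ((Fintype.card Ω : ENNReal)⁻¹) ^ 3 := by
  classical
  haveI : IsProbabilityMeasure (ProbabilityTheory.uniformOn (Set.univ : Set Ω)) :=
    ProbabilityTheory.uniformOn_isProbabilityMeasure Set.finite_univ Set.univ_nonempty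
  have h1 : ∀ p : Fin 3 → Ω,
      Measure.pi (fun _ : Fin 3 => (ProbabilityTheory.uniformOn (Set.univ : Set Ω))) {p}
        = ((Fintype.card Ω : ENNReal)⁻¹) ^ 3 := by
    intro p
    rw [Measure.pi_singleton]
    have : ∀ q : Ω, ProbabilityTheory.uniformOn (Set.univ : Set Ω) {q}
        = (Fintype.card Ω : ENNReal)⁻¹ := by
      intro q
      rw [ProbabilityTheory.uniformOn_univ]
      simp
    simp [this]
  have h2 : Measure.pi (fun _ : Fin 3 => (ProbabilityTheory.uniformOn (Set.univ : Set Ω))) S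
      = ∑ p ∈ S.toFinset, Measure.pi
        (fun _ : Fin 3 => (ProbabilityTheory.uniformOn (Set.univ : Set Ω))) {p} := by
    rw [sum_measure_singleton]
    simp
  rw [h2]
  simp only [h1, Finset.sum_const, nsmul_eq_mul]
  rw [Nat.card_eq_fintype_card, Set.toFinset_card]

theorem t : S_MEAS := by
  rintro ⟨ι, Ω, _, _, _, g, x, hx1, hx2⟩ H
  classical
  letI : MeasurableSpace Ω := ⊤
  haveI : MeasurableSingletonClass Ω := ⟨fun _ => trivial⟩
  haveI : IsProbabilityMeasure (ProbabilityTheory.uniformOn (Set.univ : Set Ω)) :=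
    ProbabilityTheory.uniformOn_isProbabilityMeasure Set.finite_univ Set.univ_nonempty
  set e := Fintype.equivFin ι
  set d := Fintype.card ι
  set g' : Ω → Fin d → ℤ := fun ω j => g ω (e.symm j) with hg'
  have hm : Measurable g' := measurable_from_top
  set μ : Measure (Fin d → ℤ) := (ProbabilityTheory.uniformOn (Set.univ : Set Ω)).map g' with hμ
  haveI : IsProbabilityMeasure μ := Measure.isProbabilityMeasure_map hm.aemeasurable
  obtain ⟨w, hw, hH⟩ := H 3 d μ
  have key : ∀ A : Set (Fin 3 → Fin d → ℤ), Measure.pi (fun _ : Fin 3 => μ) A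
      = (Nat.card {p : Fin 3 → Ω // (fun i => g' (p i)) ∈ A} : ENNReal)
        * ((Fintype.card Ω : ENNReal)⁻¹) ^ 3 := by
    intro A
    have h1 : Measure.pi (fun _ : Fin 3 => μ) = (Measure.pi (fun _ : Fin 3 =>
        (ProbabilityTheory.uniformOn (Set.univ : Set Ω)))).map (fun p i => g' (p i)) := by
      rw [hμ]
      exact (Measure.pi_map_pi (fun _ => hm.aemeasurable)).symm
    rw [h1, Measure.map_apply (by fun_prop) (Set.to_countable A).measurableSet, pi_card]
    rfl
  set c : ENNReal := ((Fintype.card Ω : ENNReal)⁻¹) ^ 3 with hc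
  have hc0 : c ≠ 0 := by
    rw [hc]
    exact pow_ne_zero _ (ENNReal.inv_ne_zero.2 (ENNReal.natCast_ne_top _))
  have hct : c ≠ ⊤ := by
    rw [hc]
    exact ENNReal.pow_ne_top (ENNReal.inv_ne_top.2 (by simp))
  have h := hH ![1, -1, 2] (by intro i; fin_cases i <;> simp) (fun j => (x (e.symm j) : ℝ))
  rw [key] at h
  have hL : Nat.card {p : Fin 3 → Ω // (fun i => g' (p i)) ∈ {ω : Fin 3 → Fin d → ℤ |
      ∑ i, (![1, -1, 2] : Fin 3 → ℝ) i • (fun j => ((ω i j : ℤ) : ℝ))
        = fun j => (x (e.symm j) : ℝ)}} = cnt g 1 (-1) 2 x := by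
    apply card_tri g 1 (-1) 2 x 1
    intro p
    simp only [Set.mem_setOf_eq, Fin.sum_univ_three]
    constructor
    · intro h
      funext j
      have := congrFun h (e j)
      simp [hg'] at this
      simp
      exact_mod_cast this
    · intro h
      funext j
      have := congrFun h (e.symm j)
      simp at this
      simp [hg']
      exact_mod_cast this
  rw [hL] at h
  have hR : ∀ k : Fin d → ℤ, Measure.pi (fun _ : Fin 3 => μ)
      {ω : Fin 3 → Fin d → ℤ | ∑ i, w i • ω i = k} ≤ ((cnt g 1 (-1) 2 x - 1 : ℕ) : ENNReal) * c := by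
    intro k
    rw [key]
    gcongr
    have h1 : Nat.card {p : Fin 3 → Ω // (fun i => g' (p i)) ∈ {ω : Fin 3 → Fin d → ℤ |
        ∑ i, w i • ω i = k}} = Nat.card {p : Fin 3 → Ω // ∑ i, w i • g (p i) = k ∘ e} := by
      apply Nat.card_congr
      apply Equiv.subtypeEquivRight
      intro p
      simp only [Set.mem_setOf_eq]
      constructor
      · intro h
        funext j
        have := congrFun h (e j)
        simpa [hg'] using this
      · intro h
        funext j
        have := congrFun h (e.symm j)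
        simpa [hg'] using this
    rw [h1]
    rcases signs g w hw (k ∘ e) with ⟨k', hk⟩ | ⟨k', hk⟩
    · rw [hk]
      have := hx1 k'
      omega
    · rw [hk]
      have := hx2 k'
      omega
  have h2 := h.trans (iSup_le hR)
  have hpos : 0 < cnt g 1 (-1) 2 x := lt_of_le_of_lt (Nat.zero_le _) (hx1 0)
  rw [ENNReal.mul_le_mul_iff_left hc0 hct] at h2
  have h3 : cnt g 1 (-1) 2 x ≤ cnt g 1 (-1) 2 x - 1 := by exact_mod_cast h2
  omega

end Pool.Agent.X107.LO.MEAS
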